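import Pool.Agent.Helper55.RT.Spec5

/-!
# THIN-3, part CNT: counting (the index of the kernel of the Kummer characters)
-/

set_option autoImplicit false
set_option linter.all false

open Polynomial IsDedekindDomain
open scoped Classical

namespace Pool.Agent.Helper60.Thin.CNT

open Pool.Agent.Helper55.RT

theorem prod_offdiag {M : Type} [CommMonoid M] {n : ℕ} (H : Fin n → Fin n → M)
    (h : ∀ u, H u u = 1) :
    ∏ u, ∏ j, H u j = ∏ u, ∏ j ∈ Finset.univ.filter (fun j => u < j), H u j * H j u := by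
  have h1 := Finset.prod_prod_Ioi_mul_eq_prod_prod_off_diag (fun a b => H b a)
  have h2 : ∀ u : Fin n, Finset.univ.filter (fun j => u < j) = Finset.Ioi u := by
    intro u; ext j; simp
  simp only [h2]
  rw [h1]
  refine Finset.prod_congr rfl fun u _ => ?_
  rw [← Finset.prod_mul_prod_compl {u} (fun j => H u j)]
  simp [h u]

theorem spread {M : Type} [CommMonoid M] {n l : ℕ} (b : Fin l → Fin n) (X : Fin n → M)
    (E : Fin l → ℕ) :
    ∏ i, X (b i) ^ E i = ∏ u, X u ^ (∑ i, if b i = u then E i else 0) := by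
  have : ∀ i, X (b i) ^ E i = ∏ u, X u ^ (if b i = u then E i else 0) := by
    intro i
    rw [Finset.prod_eq_single (b i)]
    · simp
    · intro u _ hu
      rw [if_neg (fun h => hu h.symm), pow_zero]
    · intro h; exact absurd (Finset.mem_univ _) h
  simp only [this]
  rw [Finset.prod_comm]
  refine Finset.prod_congr rfl fun u _ => ?_
  rw [Finset.prod_pow_eq_pow_sum]

theorem sum_ite_zero {n l : ℕ} (c : Fin l → Fin n) (u : Fin n) (E : Fin l → ℕ)
    (h : ∀ i, c i = u → E i = 0) : (∑ i, if c i = u then E i else 0) = 0 := by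
  refine Finset.sum_eq_zero fun i _ => ?_
  split_ifs with hi
  · exact h i hi
  · rfl

theorem sum_ite_one {n l : ℕ} (c : Fin l → Fin n) (u : Fin n) (E : Fin l → ℕ) (i0 : Fin l)
    (h0 : c i0 = u) (h : ∀ i, c i = u → i = i0) : (∑ i, if c i = u then E i else 0) = E i0 := by
  rw [Finset.sum_eq_single i0]
  · rw [if_pos h0]
  · intro i _ hi
    rw [if_neg fun h' => hi (h i h')]
  · intro h'; exact absurd (Finset.mem_univ _) h'

section
variable {p : ℕ} {k k' : Type} [Field k] [Field k'] [Algebra k k'] {n : ℕ} {θ : Fin n → k'}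
  {R : Finset k'}

theorem bet_fix (hR : ∀ r ∈ R, r ∈ Set.range (algebraMap k k')) (ν : k' ≃ₐ[k] k')
    (hν : ∀ i, ν (θ i) = θ i) (e : Fin n → ℕ) (g : k' → ℕ) (u : Fin n) :
    ν (bet θ R e g (θ u)) = bet θ R e g (θ u) := by
  unfold bet
  rw [map_mul, map_prod, map_prod]
  congr 1
  · refine Finset.prod_congr rfl fun j _ => ?_
    rw [map_pow, map_sub, hν, hν]
  · refine Finset.prod_congr rfl fun r hr => ?_
    obtain ⟨s, hs⟩ := hR r hr
    rw [map_pow, map_sub, hν, ← hs, AlgEquiv.commutes]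

theorem bet_ne (hθ : Function.Injective θ) (hθR : ∀ i, θ i ∉ R) (e : Fin n → ℕ) (g : k' → ℕ)
    (u : Fin n) (hu : e u = 0) : bet θ R e g (θ u) ≠ 0 := by
  unfold bet
  refine mul_ne_zero (Finset.prod_ne_zero_iff.2 fun j _ => ?_)
    (Finset.prod_ne_zero_iff.2 fun r hr => ?_)
  · by_cases h : j = u
    · subst h; rw [hu]; simp
    · exact pow_ne_zero _ (sub_ne_zero.2 fun h' => h (hθ h').symm)
  · exact pow_ne_zero _ (sub_ne_zero.2 fun h' => hθR u (h' ▸ hr))

end

/-- the independence of the characters -/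
theorem core (p : ℕ) [Fact p.Prime] (k k' : Type) [Field k] [Field k'] [Algebra k k']
    (hneg : ∃ z : k, z ^ p = -1) (n : ℕ) (θ : Fin n → k') (R : Finset k')
    (hθ : Function.Injective θ) (hR : ∀ r ∈ R, r ∈ Set.range (algebraMap k k'))
    (hInd : Ind (k := k) p θ R) (l : ℕ) (a b : Fin l → Fin n)
    (hab : ∀ i j, a i ≠ b j) (hbi : Function.Injective b) (e : Fin l → Fin n → ℕ)
    (g : Fin l → k' → ℕ) (hea : ∀ i, e i (a i) = 0) (heb : ∀ i, e i (b i) = 0)
    (he : ∀ i j, e i j < p) (hg : ∀ i r, g i r < p)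
    (hne : ∀ i, (∃ j, e i j ≠ 0 ∧ ∀ i', j ≠ a i' ∧ j ≠ b i') ∨ ∃ r ∈ R, g i r ≠ 0)
    (w : Fin l → k')
    (hw : ∀ i, w i ^ p * bet θ R (e i) (g i) (θ (a i)) = bet θ R (e i) (g i) (θ (b i)))
    (m : Fin l → ℕ)
    (hW : ∀ ν : k' ≃ₐ[k] k', (∀ i, ν (θ i) = θ i) → ν (∏ i, w i ^ m i) = ∏ i, w i ^ m i) :
    ∀ i, p ∣ m i := by
  have hp : p.Prime := Fact.out
  obtain ⟨z0, hz0⟩ := hneg
  set z : k' := algebraMap k k' z0 with hz
  have hzp : z ^ p = -1 := by rw [hz, ← map_pow, hz0]; simp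
  set F : Fin n → Fin n → ℕ := fun u j =>
    (∑ i, if b i = u then e i j * m i else 0) +
      ∑ i, if a i = u then e i j * ((p - 1) * m i) else 0 with hF
  set G : Fin n → k' → ℕ := fun u r =>
    (∑ i, if b i = u then g i r * m i else 0) +
      ∑ i, if a i = u then g i r * ((p - 1) * m i) else 0 with hG
  have hF0 : ∀ u, F u u = 0 := by
    intro u
    simp only [hF]
    rw [sum_ite_zero b u (fun i => e i u * m i) (fun i h => by
        show e i u * m i = 0
        rw [← h, heb, zero_mul]),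
      sum_ite_zero a u (fun i => e i u * ((p - 1) * m i)) (fun i h => by
        show e i u * ((p - 1) * m i) = 0
        rw [← h, hea, zero_mul])]
  -- the product
  have hbet : ∀ (c : Fin l → Fin n) (M : Fin l → ℕ),
      ∏ i, bet θ R (e i) (g i) (θ (c i)) ^ M i =
        (∏ u, ∏ j, (θ u - θ j) ^ (∑ i, if c i = u then e i j * M i else 0)) *
          ∏ u, ∏ r ∈ R, (θ u - r) ^ (∑ i, if c i = u then g i r * M i else 0) := by
    intro c M
    have h1 : ∀ i, bet θ R (e i) (g i) (θ (c i)) ^ M i =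
        (∏ j, (θ (c i) - θ j) ^ (e i j * M i)) * ∏ r ∈ R, (θ (c i) - r) ^ (g i r * M i) := by
      intro i
      unfold bet
      rw [mul_pow, ← Finset.prod_pow, ← Finset.prod_pow]
      simp only [← pow_mul]
    simp only [h1]
    rw [Finset.prod_mul_distrib]
    congr 1
    · rw [Finset.prod_comm (s := (Finset.univ : Finset (Fin l))) (t := (Finset.univ : Finset (Fin n))),
        Finset.prod_comm (s := (Finset.univ : Finset (Fin n))) (t := (Finset.univ : Finset (Fin n)))]
      refine Finset.prod_congr rfl fun j _ => ?_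
      exact spread c (fun u => θ u - θ j) fun i => e i j * M i
    · rw [Finset.prod_comm (s := (Finset.univ : Finset (Fin l))) (t := R),
        Finset.prod_comm (s := (Finset.univ : Finset (Fin n))) (t := R)]
      refine Finset.prod_congr rfl fun r _ => ?_
      exact spread c (fun u => θ u - r) fun i => g i r * M i
  have hkey : (∏ i, w i ^ m i * bet θ R (e i) (g i) (θ (a i)) ^ m i) ^ p =
      (∏ u, ∏ j, (θ u - θ j) ^ F u j) * ∏ u, ∏ r ∈ R, (θ u - r) ^ G u r := by
    have h1 : (∏ i, w i ^ m i * bet θ R (e i) (g i) (θ (a i)) ^ m i) ^ p =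
        (∏ i, bet θ R (e i) (g i) (θ (b i)) ^ m i) *
          ∏ i, bet θ R (e i) (g i) (θ (a i)) ^ ((p - 1) * m i) := by
      rw [← Finset.prod_pow, ← Finset.prod_mul_distrib]
      refine Finset.prod_congr rfl fun i _ => ?_
      rw [← hw i]
      obtain ⟨q, hq⟩ : ∃ q, p = q + 1 := ⟨p - 1, by have := hp.pos; omega⟩
      have hq' : p - 1 = q := by omega
      rw [hq']
      conv_lhs => rw [hq]
      conv_rhs => rw [hq]
      ring
    rw [h1, hbet b m, hbet a fun i => (p - 1) * m i]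
    simp only [hF, hG, pow_add, Finset.prod_mul_distrib]
    ring
  have hoff := prod_offdiag (fun u j => (θ u - θ j) ^ F u j) (fun u => by simp [hF0])
  have hInd' := hInd (fun u j => F u j + F j u) G
    ⟨(∏ i, w i ^ m i * bet θ R (e i) (g i) (θ (a i)) ^ m i) *
      ∏ u, ∏ j ∈ Finset.univ.filter (fun j => u < j), z ^ F j u, ?_, ?_⟩
  · obtain ⟨hI1, hI2⟩ := hInd'
    have hI1' : ∀ u j, u ≠ j → p ∣ F u j + F j u := by
      intro u j huj
      rcases lt_or_gt_of_ne huj with h | h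
      · exact hI1 u j h
      · have := hI1 j u h
        rwa [add_comm] at this
    intro i
    rcases hne i with ⟨j, hj, hja⟩ | ⟨r, hr, hgr⟩
    · have h1 : F j (b i) = 0 := by
        simp only [hF]
        rw [sum_ite_zero b j (fun i' => e i' (b i) * m i') (fun i' h => absurd h.symm (hja i').2),
          sum_ite_zero a j (fun i' => e i' (b i) * ((p - 1) * m i'))
            (fun i' h => absurd h.symm (hja i').1)]
      have h2 : F (b i) j = e i j * m i := by
        simp only [hF]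
        rw [sum_ite_one b (b i) (fun i' => e i' j * m i') i rfl (fun i' h => hbi h),
          sum_ite_zero a (b i) (fun i' => e i' j * ((p - 1) * m i'))
            (fun i' h => absurd h (hab i' i)), add_zero]
      have h3 := hI1' (b i) j (fun h => (hja i).2 h.symm)
      rw [h1, h2, add_zero] at h3
      rcases (Nat.Prime.dvd_mul hp).1 h3 with h | h
      · exact absurd (Nat.le_of_dvd (Nat.pos_of_ne_zero hj) h) (not_le.2 (he i j))
      · exact h
    · have h2 : G (b i) r = g i r * m i := by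
        simp only [hG]
        rw [sum_ite_one b (b i) (fun i' => g i' r * m i') i rfl (fun i' h => hbi h),
          sum_ite_zero a (b i) (fun i' => g i' r * ((p - 1) * m i'))
            (fun i' h => absurd h (hab i' i)), add_zero]
      have h3 := hI2 (b i) r hr
      rw [h2] at h3
      rcases (Nat.Prime.dvd_mul hp).1 h3 with h | h
      · exact absurd (Nat.le_of_dvd (Nat.pos_of_ne_zero hgr) h) (not_le.2 (hg i r))
      · exact h
  · intro ν hν
    rw [Finset.prod_mul_distrib, map_mul, map_mul, hW ν hν]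
    congr 1
    · congr 1
      rw [map_prod]
      refine Finset.prod_congr rfl fun i _ => ?_
      rw [map_pow, bet_fix hR ν hν]
    · simp only [map_prod, map_pow, hz, AlgEquiv.commutes]
  · rw [mul_pow, hkey, hoff]
    have h1 : ∀ u, ∀ j ∈ Finset.univ.filter (fun j => u < j),
        (θ u - θ j) ^ F u j * (θ j - θ u) ^ F j u * (z ^ F j u) ^ p =
          (θ u - θ j) ^ (F u j + F j u) := by
      intro u j _
      have h2 : (z ^ F j u) ^ p = (-1) ^ F j u := by
        rw [← pow_mul, mul_comm, pow_mul, hzp]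
      rw [h2, mul_assoc, ← mul_pow, pow_add]
      congr 2
      ring
    rw [← Finset.prod_pow]
    simp only [← Finset.prod_pow]
    have h3 : (∏ u, ∏ j ∈ Finset.univ.filter (fun j => u < j),
        (θ u - θ j) ^ F u j * (θ j - θ u) ^ F j u) *
        (∏ u, ∏ j ∈ Finset.univ.filter (fun j => u < j), (z ^ F j u) ^ p) =
        ∏ u, ∏ j ∈ Finset.univ.filter (fun j => u < j), (θ u - θ j) ^ (F u j + F j u) := by
      rw [← Finset.prod_mul_distrib]
      refine Finset.prod_congr rfl fun u _ => ?_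
      rw [← Finset.prod_mul_distrib]
      exact Finset.prod_congr rfl (h1 u)
    rw [← h3]
    ring

theorem cast_eq {p : ℕ} [Fact p.Prime] {k' : Type} [Field k'] {ζ : k'} (hζ : IsPrimitiveRoot ζ p)
    {a b : ℕ} (h : ζ ^ a = ζ ^ b) : (a : ZMod p) = (b : ZMod p) := by
  have hp : p.Prime := Fact.out
  have h1 : ζ ^ (a % p) = ζ ^ (b % p) := by
    have e1 : ∀ c : ℕ, ζ ^ c = ζ ^ (c % p) := by
      intro c
      conv_lhs => rw [← Nat.div_add_mod c p, pow_add, pow_mul, hζ.pow_eq_one, one_pow, one_mul]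
    rw [← e1, ← e1, h]
  have h2 := hζ.pow_inj (Nat.mod_lt _ hp.pos) (Nat.mod_lt _ hp.pos) h1
  rw [← ZMod.natCast_mod a p, ← ZMod.natCast_mod b p, h2]

theorem main' (p : ℕ) [Fact p.Prime] (k k' : Type) [Field k] [CharZero k] [Field k']
    [Algebra k k'] [IsSepClosure k k']
    (hμ : ∀ ζ : k', ζ ^ p = 1 → ζ ∈ Set.range (algebraMap k k'))
    (hneg : ∃ z : k, z ^ p = -1) (n : ℕ) (θ : Fin n → k') (R : Finset k')
    (hθ : Function.Injective θ)
    (hR : ∀ r ∈ R, r ∈ Set.range (algebraMap k k')) (hθR : ∀ i, θ i ∉ R)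
    (hInd : Ind (k := k) p θ R)
    (φ : (k' ≃ₐ[k] k') →* Equiv.Perm (Fin n)) (hφ : ∀ ν i, ν (θ i) = θ (φ ν i))
    (K : Subgroup (k' ≃ₐ[k] k')) (hK : (K ⊓ φ.ker).relIndex φ.ker ≠ 0) (l : ℕ)
    (x : Fin l → Fin n)
    (hx3 : ∀ i, 3 ≤ {y | ∃ a ∈ K, φ a (x i) = y}.ncard)
    (hdis : ∀ i j, i ≠ j → ∀ a ∈ K, φ a (x i) ≠ x j)
    (hwit : ∀ i, ∃ (e : Fin n → ℕ) (g : k' → ℕ), (∀ a ∈ K, e (φ a (x i)) = 0) ∧ (∀ j, e j < p) ∧
      (∀ r, g r < p) ∧ (∀ a ∈ K, ∀ j, e (φ a j) = e j) ∧ ((∃ j, e j ≠ 0) ∨ ∃ r ∈ R, g r ≠ 0) ∧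
      ∀ a ∈ K, ∀ b ∈ K, ∃ w : k', (∀ ν ∈ K, φ ν = 1 → ν w = w) ∧
        w ^ p * bet θ R e g (θ (φ a (x i))) = bet θ R e g (θ (φ b (x i)))) :
    p ^ l ≤ (K ⊓ φ.ker).relIndex φ.ker := by
  have hp : p.Prime := Fact.out
  haveI : IsSepClosed k' := IsSepClosure.sep_closed k
  haveI : CharZero k' := charZero_of_injective_algebraMap (algebraMap k k').injective
  haveI : NeZero (p : k') := ⟨by exact_mod_cast hp.ne_zero⟩
  haveI : NeZero p := ⟨hp.ne_zero⟩
  obtain ⟨ζ, hζ⟩ := HasEnoughRootsOfUnity.exists_primitiveRoot k' p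
  have hζν : ∀ ν : k' ≃ₐ[k] k', ν ζ = ζ := by
    intro ν
    obtain ⟨z, hz⟩ := hμ ζ hζ.pow_eq_one
    rw [← hz, AlgEquiv.commutes]
  have hfix : ∀ ν, φ ν = 1 → ∀ i, ν (θ i) = θ i := by
    intro ν h i
    rw [hφ, h]; rfl
  have hfix' : ∀ ν : k' ≃ₐ[k] k', (∀ i, ν (θ i) = θ i) → φ ν = 1 := fun ν h =>
    Equiv.ext fun i => hθ ((hφ ν i).symm.trans (h i))
  have h3 : ∀ i, ∃ A B D : k' ≃ₐ[k] k', A ∈ K ∧ B ∈ K ∧ D ∈ K ∧ φ A (x i) ≠ φ B (x i) ∧
      φ A (x i) ≠ φ D (x i) ∧ φ B (x i) ≠ φ D (x i) := by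
    intro i
    have h := (Set.two_lt_ncard_iff (Set.toFinite _)).1 (hx3 i)
    obtain ⟨u, v, t, ⟨A, hA, rfl⟩, ⟨B, hB, rfl⟩, ⟨D, hD, rfl⟩, h1, h2, h3⟩ := h
    exact ⟨A, B, D, hA, hB, hD, h1, h2, h3⟩
  choose A B D hA hB hD hAB hAD hBD using h3
  have horb : ∀ i j, ∀ u ∈ K, ∀ v ∈ K, φ u (x i) = φ v (x j) → i = j := by
    intro i j u hu v hv h
    by_contra hij
    refine hdis i j hij (v⁻¹ * u) (K.mul_mem (K.inv_mem hv) hu) ?_
    rw [map_mul, map_inv, Equiv.Perm.mul_apply, h]
    exact (φ v).symm_apply_apply _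
  choose e g he0 he hg heK hne hw using hwit
  choose w hwfix hwp using fun i => hw i (A i) (hA i) (B i) (hB i)
  have hbne : ∀ i, ∀ u ∈ K, bet θ R (e i) (g i) (θ (φ u (x i))) ≠ 0 := fun i u hu =>
    bet_ne hθ hθR _ _ _ (he0 i u hu)
  have hwne : ∀ i, w i ≠ 0 := by
    intro i h
    have := hwp i
    rw [h, zero_pow hp.ne_zero, zero_mul] at this
    exact hbne i (B i) (hB i) this.symm
  have hroot : ∀ (ν : φ.ker) (i : Fin l), ∃ s : ℕ, (ν : k' ≃ₐ[k] k') (w i) = ζ ^ s * w i := by
    intro ν i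
    have hν := hfix ν.1 ν.2
    have h1 := congrArg (ν : k' ≃ₐ[k] k') (hwp i)
    rw [map_mul, map_pow, bet_fix hR _ hν, bet_fix hR _ hν, ← hwp i] at h1
    have h2 := mul_right_cancel₀ (hbne i (A i) (hA i)) h1
    have h4 : ((ν : k' ≃ₐ[k] k') (w i) / w i) ^ p = 1 := by
      rw [div_pow, h2, div_self (pow_ne_zero _ (hwne i))]
    obtain ⟨s, _, hs⟩ := hζ.eq_pow_of_pow_eq_one h4
    exact ⟨s, by rw [hs, div_mul_cancel₀ _ (hwne i)]⟩
  choose s hs using hroot
  let f : φ.ker →* Multiplicative (Fin l → ZMod p) :=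
    MonoidHom.mk' (fun ν => Multiplicative.ofAdd fun i => (s ν i : ZMod p)) (by
      intro ν ν'
      rw [← ofAdd_add]
      congr 1
      funext i
      show ((s (ν * ν') i : ℕ) : ZMod p) = (s ν i : ZMod p) + (s ν' i : ZMod p)
      rw [← Nat.cast_add]
      refine cast_eq hζ ?_
      have h1 : ((ν * ν' : φ.ker) : k' ≃ₐ[k] k') (w i) = ζ ^ (s ν i + s ν' i) * w i := by
        have : ((ν * ν' : φ.ker) : k' ≃ₐ[k] k') (w i) =
          (ν : k' ≃ₐ[k] k') ((ν' : k' ≃ₐ[k] k') (w i)) := rfl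
        rw [this, hs ν' i, map_mul, map_pow, hζν, hs ν i, pow_add]
        ring
      rw [hs] at h1
      exact mul_right_cancel₀ (hwne i) h1)
  have hf : ∀ ν, Multiplicative.toAdd (f ν) = fun i => (s ν i : ZMod p) := fun ν => rfl
  have hspan : Submodule.span (ZMod p) (Set.range fun ν => Multiplicative.toAdd (f ν)) = ⊤ := by
    by_contra hV
    obtain ⟨F, hF0, hFV⟩ := Submodule.exists_le_ker_of_lt_top _ (lt_top_iff_ne_top.2 hV)
    refine hF0 ?_
    have hFν : ∀ ν, F (fun i => (s ν i : ZMod p)) = 0 := fun ν =>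
      LinearMap.mem_ker.1 (hFV (Submodule.subset_span ⟨ν, hf ν⟩))
    set m : Fin l → ℕ := fun i => (F (fun j => if i = j then 1 else 0)).val with hm
    have hmc : ∀ i, ((m i : ℕ) : ZMod p) = F (fun j => if i = j then 1 else 0) := fun i => by
      rw [hm]; exact ZMod.natCast_zmod_val _
    have key : ∀ i, p ∣ m i := by
      refine core p k k' hneg n θ R hθ hR hInd l (fun i => φ (A i) (x i))
        (fun i => φ (B i) (x i)) ?_ ?_ e g (fun i => he0 i _ (hA i)) (fun i => he0 i _ (hB i))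
        he hg ?_ w hwp m ?_
      · intro i j h
        have hij := horb i j _ (hA i) _ (hB j) h
        subst hij
        exact hAB i h
      · intro i j h
        exact horb i j _ (hB i) _ (hB j) h
      · intro i
        rcases hne i with ⟨j, hj⟩ | h
        · left
          by_cases ho : ∃ i' u, u ∈ K ∧ φ u (x i') = j
          · obtain ⟨i', u, hu, rfl⟩ := ho
            refine ⟨φ (D i') (x i'), ?_, ?_⟩
            · rw [heK i _ (hD i')]
              rwa [heK i _ hu] at hj
            · intro i''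
              constructor
              · intro h
                have := horb i' i'' _ (hD i') _ (hA i'') h
                subst this
                exact hAD i' h.symm
              · intro h
                have := horb i' i'' _ (hD i') _ (hB i'') h
                subst this
                exact hBD i' h.symm
          · refine ⟨j, hj, fun i' => ⟨fun h => ho ⟨i', _, hA i', h.symm⟩,
              fun h => ho ⟨i', _, hB i', h.symm⟩⟩⟩
        · exact Or.inr h
      · intro ν hν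
        have hk : φ ν = 1 := hfix' ν hν
        have h1 := hFν ⟨ν, hk⟩
        rw [LinearMap.pi_apply_eq_sum_univ F] at h1
        have h2 : p ∣ ∑ i, s ⟨ν, hk⟩ i * m i := by
          rw [← ZMod.natCast_eq_zero_iff]
          push_cast
          rw [← h1]
          refine Finset.sum_congr rfl fun i _ => ?_
          rw [hmc, smul_eq_mul]
        have h4 : ∀ i, ν (w i) = ζ ^ s ⟨ν, hk⟩ i * w i := fun i => hs ⟨ν, hk⟩ i
        rw [map_prod]
        have h5 : ∀ i, ν (w i ^ m i) = ζ ^ (s ⟨ν, hk⟩ i * m i) * w i ^ m i := by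
          intro i
          rw [map_pow, h4, mul_pow, pow_mul]
        simp only [h5]
        rw [Finset.prod_mul_distrib, Finset.prod_pow_eq_pow_sum]
        obtain ⟨q, hq⟩ := h2
        rw [hq, pow_mul, hζ.pow_eq_one, one_pow, one_mul]
    have hm0 : ∀ i, F (fun j => if i = j then 1 else 0) = 0 := by
      intro i
      rw [← hmc]
      exact (ZMod.natCast_eq_zero_iff _ _).2 (key i)
    refine LinearMap.ext fun v => ?_
    rw [LinearMap.pi_apply_eq_sum_univ F]
    simp [hm0]
  have hsurj : Function.Surjective f := by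
    intro y
    have hy : Multiplicative.toAdd y ∈
      Submodule.span (ZMod p) (Set.range fun ν => Multiplicative.toAdd (f ν)) := by
      rw [hspan]; trivial
    suffices h : ∀ v ∈ Submodule.span (ZMod p) (Set.range fun ν => Multiplicative.toAdd (f ν)),
        ∃ ν, Multiplicative.toAdd (f ν) = v by
      obtain ⟨ν, hν⟩ := h _ hy
      exact ⟨ν, Multiplicative.toAdd.injective hν⟩
    intro v hv
    refine Submodule.span_induction ?_ ?_ ?_ ?_ hv
    · rintro _ ⟨ν, rfl⟩; exact ⟨ν, rfl⟩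
    · exact ⟨1, by rw [map_one]; rfl⟩
    · rintro u v _ _ ⟨ν, rfl⟩ ⟨ν', rfl⟩
      exact ⟨ν * ν', by rw [map_mul]; rfl⟩
    · rintro t u _ ⟨ν, rfl⟩
      refine ⟨ν ^ t.val, ?_⟩
      rw [map_pow, toAdd_pow]
      conv_rhs => rw [← ZMod.natCast_zmod_val t]
      rw [Nat.cast_smul_eq_nsmul]
  have hidx : f.ker.index = p ^ l := by
    rw [Subgroup.index_ker, MonoidHom.range_eq_top.2 hsurj]
    rw [Nat.card_congr (Subgroup.topEquiv (G := Multiplicative (Fin l → ZMod p))).toEquiv,
      Nat.card_congr (Multiplicative.toAdd (α := Fin l → ZMod p)), Nat.card_fun, Nat.card_zmod,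
      Nat.card_eq_fintype_card, Fintype.card_fin]
  have hle : (K ⊓ φ.ker).subgroupOf φ.ker ≤ f.ker := by
    intro ν hν
    have hνK : (ν : k' ≃ₐ[k] k') ∈ K := (Subgroup.mem_subgroupOf.1 hν).1
    rw [MonoidHom.mem_ker]
    refine Multiplicative.toAdd.injective ?_
    funext i
    show (s ν i : ZMod p) = 0
    have h1 := hs ν i
    rw [hwfix i _ hνK ν.2] at h1
    have h2 : ζ ^ s ν i = ζ ^ 0 := by
      rw [pow_zero]
      have : ζ ^ s ν i * w i = 1 * w i := by rw [one_mul]; exact h1.symm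
      exact mul_right_cancel₀ (hwne i) this
    have := cast_eq hζ h2
    simpa using this
  rw [← hidx]
  exact Nat.le_of_dvd (Nat.pos_of_ne_zero hK) (Subgroup.index_dvd_of_le hle)

theorem main : Q_CNT := by
  intro p _ k k' _ _ _ _ _ hμ hneg n θ R hθ hR hθR hInd φ hφ K hK l x hx3 hdis hwit
  exact main' p k k' hμ hneg n θ R hθ hR hθR hInd φ hφ K hK l x hx3 hdis hwit

end Pool.Agent.Helper60.Thin.CNT
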